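import Mathlib
import Pool.Agent.Zk65.BaseSym

/-!
# Base sizes of faithful actions of `S_n` never exceed `n`
-/

namespace Pool.Agent.Results.MP_3e5dca_al.BaseSizeAtMostDegree

/-- `B` is a base for the action of `G` on `X`: its pointwise stabiliser is trivial. -/
def IsBase (G : Type*) {X : Type*} [Group G] [MulAction G X] (B : Finset X) : Prop :=
  ∀ g : G, (∀ x ∈ B, g • x = x) → g = 1

/-- The base size `b(G, X)`: the least cardinality of a base. -/
noncomputable def baseSize (G X : Type*) [Group G] [MulAction G X] : ℕ :=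
  sInf {k : ℕ | ∃ B : Finset X, IsBase G B ∧ B.card = k}

/-- For every `n ≥ 1` and every faithful action of `S_n` on a finite set `X`,
a smallest base exists and `b(S_n, X) ≤ n`. -/
theorem result (n : ℕ) (_hn : 1 ≤ n) (X : Type*) [Finite X]
    [MulAction (Equiv.Perm (Fin n)) X] [FaithfulSMul (Equiv.Perm (Fin n)) X] :
    (∃ B : Finset X, IsBase (Equiv.Perm (Fin n)) B ∧
      B.card = baseSize (Equiv.Perm (Fin n)) X) ∧
    baseSize (Equiv.Perm (Fin n)) X ≤ n := by
  obtain ⟨B, hB, hbase⟩ := Pool.Agent.Zk65.BaseSym.exists_base (α := Fin n) X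
  have hne : ({k : ℕ | ∃ B : Finset X, IsBase (Equiv.Perm (Fin n)) B ∧ B.card = k}).Nonempty :=
    ⟨B.card, B, hbase, rfl⟩
  refine ⟨Nat.sInf_mem hne, ?_⟩
  have h1 : baseSize (Equiv.Perm (Fin n)) X ≤ B.card := Nat.sInf_le ⟨B, hbase, rfl⟩
  rw [Fintype.card_fin] at hB
  exact h1.trans hB

end Pool.Agent.Results.MP_3e5dca_al.BaseSizeAtMostDegree
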